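import Pool.Agent.helper19.MX.SpecD

set_option autoImplicit false

namespace MX

open Pool.Agent.helper53.AU AN
open scoped Classical Topology

theorem RST : RST_stmt := by
  intro k E F _ _ _ _ _ _ _ Q hne
  have hinj : ∀ a : E, a ≠ 0 → algebraMap E F a ≠ 0 := fun a ha => by
    rwa [Ne, map_eq_zero_iff _ (algebraMap E F).injective]
  have hmul : ∀ a b : E, a ≠ 0 → b ≠ 0 → Q.ord (algebraMap E F (a * b)) =
      Q.ord (algebraMap E F a) + Q.ord (algebraMap E F b) := by
    intro a b ha hb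
    rw [map_mul]
    exact Q.ord_mul _ _ (hinj a ha) (hinj b hb)
  have hone : Q.ord (algebraMap E F 1) = 0 := by
    have h1 := hmul 1 1 one_ne_zero one_ne_zero
    rw [mul_one] at h1
    linarith
  let S : AddSubgroup ℤ :=
    { carrier := {n | ∃ a : E, a ≠ 0 ∧ Q.ord (algebraMap E F a) = n}
      zero_mem' := ⟨1, one_ne_zero, hone⟩
      add_mem' := by
        rintro _ _ ⟨a, ha, rfl⟩ ⟨b, hb, rfl⟩
        exact ⟨a * b, mul_ne_zero ha hb, hmul a b ha hb⟩
      neg_mem' := by
        rintro _ ⟨a, ha, rfl⟩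
        refine ⟨a⁻¹, inv_ne_zero ha, ?_⟩
        have h1 := hmul a a⁻¹ ha (inv_ne_zero ha)
        rw [mul_inv_cancel₀ ha, hone] at h1
        linarith }
  have hS : ∀ n : ℤ, n ∈ S ↔ ∃ a : E, a ≠ 0 ∧ Q.ord (algebraMap E F a) = n := fun n => Iff.rfl
  obtain ⟨g, hg⟩ := Int.subgroup_cyclic S
  have hgS : g ∈ S := by
    rw [hg]
    exact AddSubgroup.subset_closure (Set.mem_singleton g)
  have hmem : ∀ n ∈ S, g ∣ n := by
    intro n hn
    rw [hg, AddSubgroup.mem_closure_singleton] at hn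
    obtain ⟨z, hz⟩ := hn
    exact ⟨z, by rw [← hz, smul_eq_mul, mul_comm]⟩
  have hg0 : g ≠ 0 := by
    rintro rfl
    obtain ⟨a, ha, h⟩ := hne
    exact h (zero_dvd_iff.1 (hmem _ ((hS _).2 ⟨a, ha, rfl⟩)))
  have hepos : 0 < g.natAbs := Int.natAbs_pos.2 hg0
  have heS : (g.natAbs : ℤ) ∈ S := by
    rcases Int.natAbs_eq g with h | h
    · rw [← h]; exact hgS
    · have : (g.natAbs : ℤ) = -g := by omega
      rw [this]
      exact S.neg_mem hgS
  have hv : ∀ a : E, ∃ w : ℤ, Q.ord (algebraMap E F a) = (g.natAbs : ℤ) * w := by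
    intro a
    by_cases ha : a = 0
    · exact ⟨0, by rw [ha, map_zero, Q.ord_zero, mul_zero]⟩
    · obtain ⟨w, hw⟩ := Int.natAbs_dvd.2 (hmem _ ((hS _).2 ⟨a, ha, rfl⟩))
      exact ⟨w, hw⟩
  have he0 : (g.natAbs : ℤ) ≠ 0 := by exact_mod_cast hepos.ne'
  have heposZ : (0 : ℤ) < g.natAbs := by exact_mod_cast hepos
  choose w hw using hv
  generalize g.natAbs = e at *
  refine ⟨{ ord := w, ord_zero := ?_, ord_mul := ?_, ord_add := ?_, ord_const := ?_,
            exists_uniformizer := ?_ }, e, hepos, hw⟩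
  · have h1 := hw 0
    rw [map_zero, Q.ord_zero] at h1
    exact (mul_eq_zero.1 h1.symm).resolve_left he0
  · intro a b ha hb
    have h1 := hmul a b ha hb
    rw [hw, hw, hw, ← mul_add] at h1
    exact mul_left_cancel₀ he0 h1
  · intro a b ha hb hab
    have h1 := Q.ord_add _ _ (hinj a ha) (hinj b hb) (by rw [← map_add]; exact hinj _ hab)
    rw [← map_add, hw, hw, hw] at h1
    rcases min_le_iff.1 h1 with h2 | h2
    · exact (min_le_left _ _).trans (le_of_mul_le_mul_left h2 heposZ)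
    · exact (min_le_right _ _).trans (le_of_mul_le_mul_left h2 heposZ)
  · intro c hc
    have h1 := hw (algebraMap k E c)
    rw [← IsScalarTower.algebraMap_apply, Q.ord_const c hc] at h1
    exact (mul_eq_zero.1 h1.symm).resolve_left he0
  · obtain ⟨a, ha, h1⟩ := (hS _).1 heS
    refine ⟨a, ha, ?_⟩
    rw [hw] at h1
    have h2 : (e : ℤ) * w a = e * 1 := by rw [mul_one]; exact h1
    exact mul_left_cancel₀ he0 h2

end MX
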